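import Pool.Agent.Helper67.Cube6.Signed

/-!
# Enumeration of vertex simplices of the 6-cube up to symmetry: the checks and their soundness
-/

set_option autoImplicit false

namespace Pool.Agent.Helper63.Cube6

open Helper67.Cube

/-! ### Loops -/

/-- conjunction over `k < n` -/
def allR (n : ℕ) (f : ℕ → Bool) : Bool :=
  Nat.rec (motive := fun _ => Bool) true (fun k ih => cond (f k) ih false) n

lemma allR_iff {n : ℕ} {f : ℕ → Bool} : allR n f = true ↔ ∀ k < n, f k = true := by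
  induction n with
  | zero =>
    refine ⟨fun _ k hk => absurd hk (Nat.not_lt_zero k), fun _ => rfl⟩
  | succ n ih =>
    have h : allR (n+1) f = cond (f n) (allR n f) false := rfl
    rw [h]
    constructor
    · intro h1 k hk
      cases hf : f n with
      | false => rw [hf] at h1; exact absurd h1 (by simp)
      | true =>
        rw [hf, cond_true] at h1
        rcases Nat.lt_succ_iff_lt_or_eq.mp hk with h2 | h2
        · exact ih.mp h1 k h2
        · rw [h2]; exact hf
    · intro h1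
      rw [h1 n (Nat.lt_succ_self n), cond_true]
      exact ih.mpr fun k hk => h1 k (Nat.lt_succ_of_lt hk)

/-- the number with the bits `f q`, `q < k` -/
def orR (k : ℕ) (f : ℕ → ℕ) : ℕ :=
  Nat.rec (motive := fun _ => ℕ) 0 (fun q ih => Nat.lor (Nat.pow 2 (f q)) ih) k

lemma testBit_orR {k : ℕ} {f : ℕ → ℕ} {x : ℕ} :
    (orR k f).testBit x = true ↔ ∃ q < k, f q = x := by
  induction k with
  | zero =>
    have h : orR 0 f = 0 := rfl
    rw [h, Nat.zero_testBit]
    refine ⟨fun h => absurd h (by simp), fun ⟨q, hq, _⟩ => absurd hq (Nat.not_lt_zero q)⟩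
  | succ k ih =>
    have h : orR (k+1) f = 2 ^ f k ||| orR k f := rfl
    rw [h, Nat.testBit_or, Bool.or_eq_true, ih, Nat.testBit_two_pow]
    constructor
    · rintro (h1 | ⟨q, hq, h1⟩)
      · exact ⟨k, Nat.lt_succ_self k, by simpa using h1⟩
      · exact ⟨q, Nat.lt_succ_of_lt hq, h1⟩
    · rintro ⟨q, hq, h1⟩
      rcases Nat.lt_succ_iff_lt_or_eq.mp hq with h2 | h2
      · exact Or.inr ⟨q, h2, h1⟩
      · left; rw [← h2]; simpa using h1

/-- evaluate `n` before applying `f` -/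
def fc {α : Type} (n : ℕ) (f : ℕ → α) : α :=
  Nat.rec (motive := fun _ => α) (f 0) (fun m _ => f (Nat.succ m)) n

lemma fc_eq {α : Type} (n : ℕ) (f : ℕ → α) : fc n f = f n := by
  cases n <;> rfl

/-! ### Vertices and symmetries -/

/-- vertex number `q` of the packed list `V` -/
def vx (V q : ℕ) : ℕ := Nat.mod (Nat.shiftRight V (Nat.mul 6 q)) 64

/-- the image of the vertex `c` under the symmetry with permutation table `P` and reflections `t` -/
def pv (P t c : ℕ) : ℕ := Nat.xor (Nat.mod (Nat.shiftRight P (Nat.mul 6 c)) 64) t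

lemma vx_lt (V q : ℕ) : vx V q < 64 := Nat.mod_lt _ (by norm_num)

/-- `PT r`, `r < 720`, are permutation tables -/
def PTok (PT : ℕ → ℕ) : Prop :=
  ∀ r < 720, ∃ σ : Equiv.Perm (Fin 6), ∀ c < 64, ∀ j : Fin 6,
    bit ((PT r >>> (6 * c)) % 64) j = bit c (σ j)

lemma bit_xor (a t j : ℕ) : bit (a ^^^ t) j = (bit a j + bit t j) % 2 := by
  unfold bit
  rw [Nat.shiftRight_eq_div_pow, Nat.shiftRight_eq_div_pow, Nat.shiftRight_eq_div_pow,
    ← Nat.toNat_testBit, ← Nat.toNat_testBit, ← Nat.toNat_testBit, Nat.testBit_xor]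
  cases a.testBit j <;> cases t.testBit j <;> rfl

lemma exists_sym {PT : ℕ → ℕ} (h : PTok PT) {r : ℕ} (hr : r < 720) (t : ℕ) :
    ∃ g : Sym 6, ∀ c < 64, gmap g (vtx 6 c) = vtx 6 (pv (PT r) t c) := by
  obtain ⟨σ, hσ⟩ := h r hr
  refine ⟨(σ, fun j => decide (bit t j = 1)), fun c hc => ?_⟩
  ext j
  have h1 : bit (pv (PT r) t c) j = (bit c (σ j) + bit t j) % 2 := by
    have h2 : pv (PT r) t c = ((PT r >>> (6 * c)) % 64) ^^^ t := rfl
    rw [h2, bit_xor, hσ c hc j]
  simp only [gmap, vtx_eq_bit, h1, decide_eq_true_eq]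
  have h3 := bit_lt t j
  have h4 := bit_lt c (σ j)
  split_ifs with h5
  · rw [h5]
    interval_cases (bit c (σ j)) <;> norm_num
  · have h6 : bit t j = 0 := by omega
    rw [h6]
    interval_cases (bit c (σ j)) <;> norm_num

/-- the images of the `k` vertices of `V` and of `z` lie in the set `M` -/
def pairB (k V z P t M : ℕ) : Bool :=
  Nat.beq (Nat.lor (Nat.lor (Nat.pow 2 (pv P t z)) (orR k fun q => pv P t (vx V q))) M) M

lemma pairB_spec {k V z P t M : ℕ} (h : pairB k V z P t M = true) :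
    M.testBit (pv P t z) = true ∧ ∀ q < k, M.testBit (pv P t (vx V q)) = true := by
  have h1 : (2 ^ (pv P t z) ||| orR k fun q => pv P t (vx V q)) ||| M = M :=
    Nat.eq_of_beq_eq_true h
  have h2 : ∀ x, (2 ^ (pv P t z) ||| orR k fun q => pv P t (vx V q)).testBit x = true →
      M.testBit x = true := by
    intro x hx
    rw [← h1, Nat.testBit_or, hx, Bool.true_or]
  constructor
  · apply h2
    rw [Nat.testBit_or, Nat.testBit_two_pow_self, Bool.true_or]
  · intro q hq
    apply h2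
    rw [Nat.testBit_or, Bool.or_eq_true]
    exact Or.inr (testBit_orR.mpr ⟨q, hq, rfl⟩)

/-- the sets `M j` consist of the vertices `V j`, `j < n` -/
def mskB (k n : ℕ) (V M : ℕ → ℕ) : Bool := allR n fun j => Nat.beq (orR k (vx (V j))) (M j)

lemma mskB_spec {k n : ℕ} {V M : ℕ → ℕ} (h : mskB k n V M = true) {j : ℕ} (hj : j < n) {x : ℕ}
    (hx : (M j).testBit x = true) : ∃ q < k, vx (V j) q = x := by
  have h1 := allR_iff.mp h j hj
  have h2 : orR k (vx (V j)) = M j := Nat.eq_of_beq_eq_true h1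
  rw [← h2] at hx
  exact testBit_orR.mp hx

/-- one pair: certificate `w = 2 ^ 16 * j + 64 * r + t` -/
def certB (k n V z w : ℕ) (PT M : ℕ → ℕ) : Bool :=
  fc w fun w => fc (Nat.shiftRight w 16) fun j => fc (Nat.mod (Nat.shiftRight w 6) 1024) fun r =>
    cond (Nat.ble (Nat.succ j) n)
      (cond (Nat.ble r 719) (pairB k V z (PT r) (Nat.mod w 64) (M j)) false) false

lemma certB_spec {k n V z w : ℕ} {PT M : ℕ → ℕ} (h : certB k n V z w PT M = true) :
    ∃ j < n, ∃ r < 720, ∃ t, pairB k V z (PT r) t (M j) = true := by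
  unfold certB at h
  rw [fc_eq, fc_eq, fc_eq] at h
  cases h1 : Nat.ble (Nat.succ (Nat.shiftRight w 16)) n with
  | false => rw [h1] at h; exact absurd h (by simp)
  | true =>
    rw [h1, cond_true] at h
    cases h2 : Nat.ble (Nat.mod (Nat.shiftRight w 6) 1024) 719 with
    | false => rw [h2] at h; exact absurd h (by simp)
    | true =>
      rw [h2, cond_true] at h
      refine ⟨_, ?_, _, ?_, _, h⟩
      · have := Nat.le_of_ble_eq_true h1
        omega
      · have := Nat.le_of_ble_eq_true h2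
        omega

/-- certificate number `z` of the packed list `W` -/
def cw (W z : ℕ) : ℕ := Nat.mod (Nat.shiftRight W (Nat.mul 30 z)) 1073741824

/-- every list of `k` vertices is moved by a symmetry into one of the `n` lists `V i` -/
def LV (k n : ℕ) (V : ℕ → ℕ) : Prop :=
  ∀ v : Fin k → (Fin 6 → ℝ), (∀ q j, v q j = 0 ∨ v q j = 1) → ∃ i < n,
    ∃ g : Sym 6, ∀ q, ∃ q' < k, gmap g (v q) = vtx 6 (vx (V i) q')

/-- all extensions of the list `V` -/
def stepI (k n V W : ℕ) (PT M : ℕ → ℕ) : Bool :=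
  fc V fun V => fc W fun W => allR 64 fun z => certB k n V z (cw W z) PT M

/-- the composition of the symmetry of the induction hypothesis with the one of the certificate -/
lemma compose {k n : ℕ} {PT V' M' : ℕ → ℕ} {V : ℕ} (hPT : PTok PT)
    (hM : mskB (k+1) n V' M' = true) {v : Fin (k+1) → (Fin 6 → ℝ)} {g : Sym 6}
    (hg : ∀ q : Fin k, ∃ q' < k, gmap g (v q.castSucc) = vtx 6 (vx V q')) {z : ℕ} (hz : z < 64)
    (hz2 : vtx 6 z = gmap g (v (Fin.last k))) {j r t : ℕ} (hj : j < n) (hr : r < 720)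
    (h : pairB k V z (PT r) t (M' j) = true) :
    ∃ i < n, ∃ g : Sym 6, ∀ q, ∃ q' < k+1, gmap g (v q) = vtx 6 (vx (V' i) q') := by
  obtain ⟨h1, h2⟩ := pairB_spec h
  obtain ⟨g', hg'⟩ := exists_sym hPT hr t
  refine ⟨j, hj, gcomp g' g, fun q => ?_⟩
  rw [gmap_gcomp]
  refine Fin.lastCases ?_ (fun q => ?_) q
  · obtain ⟨q', hq', he⟩ := mskB_spec hM hj h1
    exact ⟨q', hq', by rw [← hz2, hg' z hz, he]⟩
  · obtain ⟨q1, hq1, he1⟩ := hg q
    obtain ⟨q', hq', he⟩ := mskB_spec hM hj (h2 q1 hq1)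
    exact ⟨q', hq', by rw [he1, hg' _ (vx_lt _ _), he]⟩

theorem LV.step {k n n' : ℕ} {V V' M' PT : ℕ → ℕ} (hL : LV k n V) (hPT : PTok PT)
    (hM : mskB (k+1) n' V' M' = true) (h : ∀ i < n, ∃ W, stepI k n' (V i) W PT M' = true) :
    LV (k+1) n' V' := by
  intro v hv
  obtain ⟨i, hi, g, hg⟩ := hL (fun q => v q.castSucc) (fun q => hv _)
  obtain ⟨z, hz, hz2⟩ := exists_code (gmap g (v (Fin.last k))) (gmap_bool g (hv _))
  obtain ⟨W, h0⟩ := h i hi
  unfold stepI at h0
  rw [fc_eq, fc_eq] at h0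
  obtain ⟨j, hj, r, hr, t, h1⟩ := certB_spec (allR_iff.mp h0 z hz)
  exact compose hPT hM hg hz hz2 hj hr h1

theorem LV.zero (V : ℕ → ℕ) : LV 0 1 V := by
  intro v hv
  exact ⟨0, by norm_num, (1, fun _ => false), fun q => q.elim0⟩

/-! ### The last step: functionals -/

/-- digit `j` -/
def dg (A j : ℕ) : ℕ := Nat.mod (Nat.shiftRight A (Nat.mul 4 j)) 16

/-- lane `z` -/
def ln (F z : ℕ) : ℕ := Nat.mod (Nat.shiftRight F (Nat.mul 8 z)) 256

lemma lane_get (b : ℕ) (f : ℕ → ℕ) : ∀ n, (∀ z < n, f z < 2 ^ b) → ∀ z < n,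
    ((∑ z ∈ Finset.range n, f z * 2 ^ (b * z)) >>> (b * z)) % 2 ^ b = f z := by
  have hlt : ∀ n, (∀ z < n, f z < 2 ^ b) →
      ∑ z ∈ Finset.range n, f z * 2 ^ (b * z) < 2 ^ (b * n) := by
    intro n
    induction n with
    | zero => intro _; simp
    | succ n ih =>
      intro h
      have h1 := ih fun z hz => h z (Nat.lt_succ_of_lt hz)
      have h2 := h n (Nat.lt_succ_self n)
      rw [Finset.sum_range_succ, Nat.mul_succ, pow_add]
      have h3 : f n * 2 ^ (b * n) + 2 ^ (b * n) ≤ 2 ^ b * 2 ^ (b * n) := by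
        rw [← Nat.succ_mul]
        exact Nat.mul_le_mul_right _ h2
      have h4 : 2 ^ b * 2 ^ (b * n) = 2 ^ (b * n) * 2 ^ b := Nat.mul_comm _ _
      omega
  intro n
  induction n with
  | zero => intro _ z hz; exact absurd hz (Nat.not_lt_zero z)
  | succ n ih =>
    intro h z hz
    have h' := fun z (hz : z < n) => h z (Nat.lt_succ_of_lt hz)
    rw [Finset.sum_range_succ, Nat.shiftRight_eq_div_pow]
    rcases Nat.lt_succ_iff_lt_or_eq.mp hz with hz' | rfl
    · have h1 := ih h' z hz'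
      rw [Nat.shiftRight_eq_div_pow] at h1
      obtain ⟨m, hm⟩ : ∃ m, n = z + 1 + m := ⟨n - (z + 1), by omega⟩
      have h2 : f n * 2 ^ (b * n) = (f n * 2 ^ (b * m) * 2 ^ b) * 2 ^ (b * z) := by
        rw [hm]
        ring
      rw [h2, Nat.add_mul_div_right _ _ (by positivity), Nat.add_mul_mod_self_right, h1]
    · rw [Nat.add_mul_div_right _ _ (by positivity), Nat.div_eq_of_lt (hlt z h'), Nat.zero_add,
        Nat.mod_eq_of_lt (h z (Nat.lt_succ_self z))]

/-- `∑ z < 64, 2 ^ (8 z)` -/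
def oneL : ℕ := 0x01010101010101010101010101010101010101010101010101010101010101010101010101010101010101010101010101010101010101010101010101010101

/-- `∑ z < 64, bit z j * 2 ^ (8 z)` -/
def bL (j : ℕ) : ℕ := Nat.land (Nat.shiftRight
  0x3f3e3d3c3b3a393837363534333231302f2e2d2c2b2a292827262524232221201f1e1d1c1b1a191817161514131211100f0e0d0c0b0a09080706050403020100 j) oneL

lemma oneL_eq : oneL = ∑ z ∈ Finset.range 64, 1 * 2 ^ (8 * z) := by decide +kernel

lemma bL_eq : ∀ j < 6, bL j = ∑ z ∈ Finset.range 64, bit z j * 2 ^ (8 * z) := by decide +kernel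

/-- the packed values of the functional with the digits of `A` -/
def fL (A : ℕ) : ℕ :=
  Nat.add (Nat.mul (dg A 0) oneL) (Nat.add (Nat.mul (dg A 1) (bL 0)) (Nat.add
    (Nat.mul (dg A 2) (bL 1)) (Nat.add (Nat.mul (dg A 3) (bL 2)) (Nat.add
    (Nat.mul (dg A 4) (bL 3)) (Nat.add (Nat.mul (dg A 5) (bL 4)) (Nat.mul (dg A 6) (bL 5)))))))

lemma dg_lt (A j : ℕ) : dg A j < 16 := Nat.mod_lt _ (by norm_num)

lemma ln_fL (A : ℕ) {z : ℕ} (hz : z < 64) :
    ln (fL A) z = dg A 0 + (dg A 1 * bit z 0 + (dg A 2 * bit z 1 + (dg A 3 * bit z 2 +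
      (dg A 4 * bit z 3 + (dg A 5 * bit z 4 + dg A 6 * bit z 5))))) := by
  have h1 : fL A = ∑ z ∈ Finset.range 64, (dg A 0 + (dg A 1 * bit z 0 + (dg A 2 * bit z 1 +
      (dg A 3 * bit z 2 + (dg A 4 * bit z 3 + (dg A 5 * bit z 4 + dg A 6 * bit z 5)))))) *
        2 ^ (8 * z) := by
    have h2 : fL A = dg A 0 * oneL + (dg A 1 * bL 0 + (dg A 2 * bL 1 + (dg A 3 * bL 2 +
      (dg A 4 * bL 3 + (dg A 5 * bL 4 + dg A 6 * bL 5))))) := rfl
    rw [h2, oneL_eq, bL_eq 0 (by norm_num), bL_eq 1 (by norm_num), bL_eq 2 (by norm_num),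
      bL_eq 3 (by norm_num), bL_eq 4 (by norm_num), bL_eq 5 (by norm_num)]
    simp only [Finset.mul_sum, ← Finset.sum_add_distrib]
    refine Finset.sum_congr rfl fun z _ => ?_
    ring
  have h3 : ln (fL A) z = ((fL A) >>> (8 * z)) % 2 ^ 8 := rfl
  rw [h3, h1]
  refine lane_get 8 _ 64 ?_ z hz
  intro z _
  have hb := bit_lt z
  have hd := dg_lt A
  have hm : ∀ i j, dg A i * bit z j ≤ 15 := by
    intro i j
    calc dg A i * bit z j ≤ 15 * 1 :=
          Nat.mul_le_mul (by have := hd i; omega) (by have := hb j; omega)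
      _ = 15 := rfl
  have h0 := hd 0
  have h1 := hm 1 0
  have h2 := hm 2 1
  have h3 := hm 3 2
  have h4 := hm 4 3
  have h5 := hm 5 4
  have h6 := hm 6 5
  norm_num
  omega

/-- the packed values of the functional with all digits `8` -/
def zL : ℕ := fL 0x8888888

/-- the functional vanishes at `z` -/
def depB (A z : ℕ) : Bool := Nat.beq (ln (fL A) z) (ln zL z)

lemma depB_spec {A z : ℕ} (hz : z < 64) (h : depB A z = true) :
    (fun j : Fin 6 => ((dg A (j+1) : ℕ) : ℝ) - 8) ⬝ᵥ vtx 6 z = 8 - ((dg A 0 : ℕ) : ℝ) := by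
  have h1 : ln (fL A) z = ln (fL 0x8888888) z := Nat.eq_of_beq_eq_true h
  rw [ln_fL A hz, ln_fL _ hz] at h1
  have h2 : dg 0x8888888 0 = 8 ∧ dg 0x8888888 1 = 8 ∧ dg 0x8888888 2 = 8 ∧ dg 0x8888888 3 = 8 ∧
      dg 0x8888888 4 = 8 ∧ dg 0x8888888 5 = 8 ∧ dg 0x8888888 6 = 8 := by decide
  obtain ⟨e0, e1, e2, e3, e4, e5, e6⟩ := h2
  rw [e0, e1, e2, e3, e4, e5, e6] at h1
  have h3 : ((dg A 0 + (dg A 1 * bit z 0 + (dg A 2 * bit z 1 + (dg A 3 * bit z 2 +
      (dg A 4 * bit z 3 + (dg A 5 * bit z 4 + dg A 6 * bit z 5))))) : ℕ) : ℝ) =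
      ((8 + (8 * bit z 0 + (8 * bit z 1 + (8 * bit z 2 + (8 * bit z 3 + (8 * bit z 4 +
        8 * bit z 5))))) : ℕ) : ℝ) := by rw [h1]
  push_cast at h3
  rw [dotProduct, Fin.sum_univ_six]
  simp only [vtx_eq_bit]
  norm_num
  linarith

/-- the functional vanishes at the vertices of `V` and is not constant -/
def funcB (A V : ℕ) : Bool :=
  cond (allR 6 fun j => Nat.beq (dg A (Nat.succ j)) 8) false (allR 6 fun q => depB A (vx V q))

lemma funcB_spec {A V : ℕ} (h : funcB A V = true) :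
    (fun j : Fin 6 => ((dg A (j+1) : ℕ) : ℝ) - 8) ≠ 0 ∧ ∀ q < 6, depB A (vx V q) = true := by
  unfold funcB at h
  cases h1 : allR 6 fun j => Nat.beq (dg A (Nat.succ j)) 8 with
  | true => rw [h1] at h; exact absurd h (by simp)
  | false =>
    rw [h1, cond_false] at h
    refine ⟨?_, allR_iff.mp h⟩
    intro h0
    have h2 : allR 6 (fun j => Nat.beq (dg A (Nat.succ j)) 8) = true := by
      rw [allR_iff]
      intro j hj
      have h3 := congrFun h0 ⟨j, hj⟩
      simp only [Pi.zero_apply] at h3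
      have h4 : ((dg A (j+1) : ℕ) : ℝ) = ((8 : ℕ) : ℝ) := by
        push_cast
        linarith
      have h5 : dg A (j+1) = 8 := by exact_mod_cast h4
      rw [Nat.succ_eq_add_one, h5]
      rfl
    rw [h2] at h1
    exact absurd h1 (by simp)

/-! ### The last step: relations -/

/-- `∑ q < k, f q` -/
def sumR (k : ℕ) (f : ℕ → ℕ) : ℕ :=
  Nat.rec (motive := fun _ => ℕ) 0 (fun q ih => Nat.add (f q) ih) k

lemma sumR_eq (k : ℕ) (f : ℕ → ℕ) : sumR k f = ∑ q : Fin k, f q := by
  induction k with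
  | zero => rfl
  | succ k ih =>
    have h : sumR (k+1) f = f k + sumR k f := rfl
    rw [h, ih, Fin.sum_univ_castSucc, Nat.add_comm]
    rfl

/-- an affine relation between the vertices of `V` -/
def relR (R V : ℕ) : Bool :=
  cond (allR 6 fun q => Nat.beq (dg R q) 8) false
    (cond (Nat.beq (sumR 6 fun q => dg R q) 48)
      (allR 6 fun j => Nat.beq (sumR 6 fun q => Nat.mul (dg R q) (bit (vx V q) j))
        (sumR 6 fun q => Nat.mul 8 (bit (vx V q) j))) false)

lemma relR_false {R V : ℕ} (h : relR R V = true) {v : Fin 7 → (Fin 6 → ℝ)}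
    (hv : AffineIndependent ℝ v) (g : Sym 6)
    (hg : ∀ q : Fin 6, ∃ q' < 6, gmap g (v q.castSucc) = vtx 6 (vx V q')) : False := by
  unfold relR at h
  cases h1 : allR 6 fun q => Nat.beq (dg R q) 8 with
  | true => rw [h1] at h; exact absurd h (by simp)
  | false =>
  rw [h1, cond_false] at h
  cases h2 : Nat.beq (sumR 6 fun q => dg R q) 48 with
  | false => rw [h2] at h; exact absurd h (by simp)
  | true =>
  rw [h2, cond_true] at h
  have hs := Nat.eq_of_beq_eq_true h2
  rw [sumR_eq] at hs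
  choose π' hπ' hπe using hg
  obtain ⟨π, hπ⟩ : ∃ π : Fin 6 → Fin 6, ∀ q, (π q : ℕ) = π' q := ⟨fun q => ⟨π' q, hπ' q⟩, fun q => rfl⟩
  have hinj : Function.Injective π := by
    intro q q' hq
    have h3 : gmap g (v q.castSucc) = gmap g (v q'.castSucc) := by
      rw [hπe, hπe, ← hπ, ← hπ, hq]
    exact Fin.castSucc_injective _ (hv.injective (gmap_injective g h3))
  have hbij : Function.Bijective π := Finite.injective_iff_bijective.1 hinj
  set w : Fin 6 → ℝ := fun q => ((dg R (π q) : ℕ) : ℝ) - 8 with hw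
  have hw0 : ∑ q, w q = 0 := by
    rw [hbij.sum_comp (fun q' : Fin 6 => ((dg R q' : ℕ) : ℝ) - 8), Finset.sum_sub_distrib,
      ← Nat.cast_sum, hs]
    simp
    norm_num
  have hwj : ∀ j : Fin 6, ∑ q, w q * gmap g (v q.castSucc) j = 0 := by
    intro j
    have h3 := Nat.eq_of_beq_eq_true (allR_iff.mp h j j.2)
    rw [sumR_eq, sumR_eq] at h3
    have h4 : ∑ q, w q * gmap g (v q.castSucc) j =
        ∑ q, (((dg R (π q) : ℕ) : ℝ) - 8) * ((bit (vx V (π q)) j : ℕ) : ℝ) := by
      refine Finset.sum_congr rfl fun q _ => ?_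
      rw [hπe, ← hπ, vtx_eq_bit]
    rw [h4, hbij.sum_comp (fun q' : Fin 6 => (((dg R q' : ℕ) : ℝ) - 8) *
      ((bit (vx V q') j : ℕ) : ℝ))]
    have h5 : ((∑ q : Fin 6, Nat.mul (dg R q) (bit (vx V q) j) : ℕ) : ℝ) =
        ((∑ q : Fin 6, Nat.mul 8 (bit (vx V q) j) : ℕ) : ℝ) := by rw [h3]
    have h6 : ∀ a b : ℕ, Nat.mul a b = a * b := fun _ _ => rfl
    simp only [h6] at h5
    push_cast at h5
    simp only [sub_mul, Finset.sum_sub_distrib]
    linarith
  have hwv : ∀ i : Fin 6, ∑ q, w q * v q.castSucc i = 0 := by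
    intro i
    have h3 := hwj (g.1⁻¹ i)
    have e : g.1 (g.1⁻¹ i) = i := by simp
    simp only [gmap, e] at h3
    by_cases hb : g.2 (g.1⁻¹ i) = true
    · simp only [hb, if_true, mul_sub, mul_one, Finset.sum_sub_distrib, hw0] at h3
      linarith
    · simp only [hb, Bool.false_eq_true, if_false] at h3
      exact h3
  have hv' : AffineIndependent ℝ (fun q : Fin 6 => v q.castSucc) :=
    hv.comp_embedding Fin.castSuccEmb
  rw [affineIndependent_iff] at hv'
  have h7 := hv' Finset.univ w hw0 (by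
    ext i
    rw [Finset.sum_apply]
    simpa using hwv i)
  have h8 : allR 6 (fun q => Nat.beq (dg R q) 8) = true := by
    rw [allR_iff]
    intro q' hq'
    obtain ⟨q, hq⟩ := hbij.2 ⟨q', hq'⟩
    have h9 := h7 q (Finset.mem_univ q)
    simp only [hw, hq] at h9
    have h10 : ((dg R q' : ℕ) : ℝ) = ((8 : ℕ) : ℝ) := by
      push_cast
      linarith
    have h11 : dg R q' = 8 := by exact_mod_cast h10
    rw [h11]
    rfl
  rw [h8] at h1
  exact absurd h1 (by simp)

/-- the last step: `R` is a relation, or `A` a functional and all independent extensions have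
certificates -/
def lastI (n V W A R : ℕ) (PT M : ℕ → ℕ) : Bool :=
  fc V fun V => fc W fun W => fc A fun A => cond (Nat.beq A 0) (relR R V)
    (cond (funcB A V)
      (allR 64 fun z => cond (depB A z) true (certB 6 n V z (cw W z) PT M)) false)

theorem LV.last {n n' : ℕ} {V V' M' PT : ℕ → ℕ} (hL : LV 6 n V) (hPT : PTok PT)
    (hM : mskB 7 n' V' M' = true)
    (h : ∀ i < n, ∃ W A R, lastI n' (V i) W A R PT M' = true) :
    LevI 6 7 n' (fun i q => vx (V' i) q) := by
  intro v hv haff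
  obtain ⟨i, hi, g, hg⟩ := hL (fun q => v q.castSucc) (fun q => hv _)
  obtain ⟨z, hz, hz2⟩ := exists_code (gmap g (v (Fin.last 6))) (gmap_bool g (hv _))
  obtain ⟨W, A, R, h1⟩ := h i hi
  unfold lastI at h1
  rw [fc_eq, fc_eq, fc_eq] at h1
  cases hA : Nat.beq A 0 with
  | true =>
    rw [hA, cond_true] at h1
    exact absurd (relR_false h1 haff g hg) (by simp)
  | false =>
  rw [hA, cond_false] at h1
  cases hF : funcB A (V i) with
  | false => rw [hF] at h1; exact absurd h1 (by simp)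
  | true =>
  rw [hF, cond_true] at h1
  obtain ⟨hne, hvan⟩ := funcB_spec hF
  have h2 := allR_iff.mp h1 z hz
  cases hd : depB A z with
  | true =>
    exfalso
    obtain ⟨q, hq⟩ := not_const_of_affineIndependent haff g _ hne (8 - ((dg A 0 : ℕ) : ℝ))
    apply hq
    refine Fin.lastCases ?_ (fun q => ?_) q
    · rw [← hz2]
      exact depB_spec hz hd
    · obtain ⟨q', hq', he⟩ := hg q
      rw [he]
      exact depB_spec (vx_lt _ _) (hvan q' hq')
  | false =>
    rw [hd, cond_false] at h2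
    obtain ⟨j, hj, r, hr, t, h3⟩ := certB_spec h2
    exact compose hPT hM hg hz hz2 hj hr h3

/-! ### Ranges -/

lemma chunk {a m b : ℕ} {f : ℕ → Bool} (h : allR m (fun k => fc (Nat.add a k) f) = true)
    (hb : b = a + m) : ∀ i, a ≤ i → i < b → f i = true := by
  intro i h1 h2
  have h3 := allR_iff.mp h (i - a) (by omega)
  rw [fc_eq] at h3
  have e : Nat.add a (i - a) = i := Nat.add_sub_of_le h1
  rwa [e] at h3

lemma join {P : ℕ → Prop} {a b c : ℕ} (h1 : ∀ i, a ≤ i → i < b → P i)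
    (h2 : ∀ i, b ≤ i → i < c → P i) : ∀ i, a ≤ i → i < c → P i := fun i ha hc => by
  rcases lt_or_ge i b with h | h
  · exact h1 i ha h
  · exact h2 i h hc

end Pool.Agent.Helper63.Cube6
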