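import Pool.Agent.Helper63.Cube6.Low
import Pool.Agent.Helper63.Cube6.E0
import Pool.Agent.Helper63.Cube6.E1
import Pool.Agent.Helper63.Cube6.G0
import Pool.Agent.Helper63.Cube6.G1
import Pool.Agent.Helper63.Cube6.G2
import Pool.Agent.Helper63.Cube6.G3
import Pool.Agent.Helper63.Cube6.G4
import Pool.Agent.Helper63.Cube6.G5
import Pool.Agent.Helper63.Cube6.G6
import Pool.Agent.Helper63.Cube6.G7

/-!
# Every nondegenerate vertex simplex of the 6-cube is equivalent to one of 9892 simplices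
-/

set_option autoImplicit false

namespace Pool.Agent.Helper63.Cube6

open Helper67.Cube

lemma msk6 : mskB 6 3253 V6 M6 = true := by
  decide +kernel

theorem lv6 : LV 6 3253 V6 := by
  refine lv5.step PT_ok msk6 fun i hi => ?_
  refine (join (fun i h1 h2 => (⟨We0 i, re0 i h1 h2⟩ : ∃ W, stepI 5 3253 (V5 i) W PT M6 = true))
    (fun i h1 h2 => (⟨We1 i, re1 i h1 h2⟩ : ∃ W, stepI 5 3253 (V5 i) W PT M6 = true))) i (Nat.zero_le i) hi

theorem lev7 : LevI 6 7 9892 (fun i q => vx (V7 i) q) := by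
  refine lv6.last PT_ok msk7 fun i hi => ?_
  refine (join (join (join (join (join (join (join (fun i h1 h2 => (⟨Wg0 i, A6 i, R6 i, rg0 i h1 h2⟩ :
      ∃ W A R, lastI 9892 (V6 i) W A R PT M7 = true))
    (fun i h1 h2 => (⟨Wg1 i, A6 i, R6 i, rg1 i h1 h2⟩ :
      ∃ W A R, lastI 9892 (V6 i) W A R PT M7 = true)))
    (fun i h1 h2 => (⟨Wg2 i, A6 i, R6 i, rg2 i h1 h2⟩ :
      ∃ W A R, lastI 9892 (V6 i) W A R PT M7 = true)))
    (fun i h1 h2 => (⟨Wg3 i, A6 i, R6 i, rg3 i h1 h2⟩ :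
      ∃ W A R, lastI 9892 (V6 i) W A R PT M7 = true)))
    (fun i h1 h2 => (⟨Wg4 i, A6 i, R6 i, rg4 i h1 h2⟩ :
      ∃ W A R, lastI 9892 (V6 i) W A R PT M7 = true)))
    (fun i h1 h2 => (⟨Wg5 i, A6 i, R6 i, rg5 i h1 h2⟩ :
      ∃ W A R, lastI 9892 (V6 i) W A R PT M7 = true)))
    (fun i h1 h2 => (⟨Wg6 i, A6 i, R6 i, rg6 i h1 h2⟩ :
      ∃ W A R, lastI 9892 (V6 i) W A R PT M7 = true)))
    (fun i h1 h2 => (⟨Wg7 i, A6 i, R6 i, rg7 i h1 h2⟩ :
      ∃ W A R, lastI 9892 (V6 i) W A R PT M7 = true))) i (Nat.zero_le i) hi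

end Pool.Agent.Helper63.Cube6
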