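import Pool.Agent.Helper63.Cube6.Data

/-!
# The permutation tables
-/

set_option autoImplicit false

namespace Pool.Agent.Helper63.Cube6

open Helper67.Cube

/-- bit `j` of `c` -/
def bt (c j : ℕ) : ℕ := Nat.mod (Nat.shiftRight c j) 2

/-- octal digit `j` of `p` -/
def dgo (p j : ℕ) : ℕ := Nat.mod (Nat.shiftRight p (Nat.mul 3 j)) 8

/-- the vertex `c` with permuted coordinates -/
def pc (p c : ℕ) : ℕ :=
  Nat.add (bt c (dgo p 0)) (Nat.mul 2 (Nat.add (bt c (dgo p 1)) (Nat.mul 2 (Nat.add (bt c (dgo p 2))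
    (Nat.mul 2 (Nat.add (bt c (dgo p 3)) (Nat.mul 2 (Nat.add (bt c (dgo p 4)) (Nat.mul 2
      (bt c (dgo p 5)))))))))))

/-- the table `P` belongs to the permutation `p` -/
def permI (p P : ℕ) : Bool :=
  cond (permB 6 p) (allR 64 fun c =>
    Nat.beq (Nat.mod (Nat.shiftRight P (Nat.mul 6 c)) 64) (pc p c)) false

lemma bit_pc (p c : ℕ) (j : Fin 6) : bit (pc p c) j = bit c (dig p j) := by
  have h : ∀ i, bt c i < 2 := fun i => Nat.mod_lt _ (by norm_num)
  have e : pc p c = bt c (dig p 0) + 2 * (bt c (dig p 1) + 2 * (bt c (dig p 2) +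
    2 * (bt c (dig p 3) + 2 * (bt c (dig p 4) + 2 * bt c (dig p 5))))) := rfl
  have e2 : ∀ i, bit c i = bt c i := fun i => rfl
  rw [e2, e]
  have h0 := h (dig p 0)
  have h1 := h (dig p 1)
  have h2 := h (dig p 2)
  have h3 := h (dig p 3)
  have h4 := h (dig p 4)
  have h5 := h (dig p 5)
  unfold bit
  rw [Nat.shiftRight_eq_div_pow]
  fin_cases j <;> simp <;> omega

lemma permI_spec {p P : ℕ} (h : permI p P = true) : ∃ σ : Equiv.Perm (Fin 6), ∀ c < 64,
    ∀ j : Fin 6, bit ((P >>> (6 * c)) % 64) j = bit c (σ j) := by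
  unfold permI at h
  cases h1 : permB 6 p with
  | false => rw [h1] at h; exact absurd h (by simp)
  | true =>
    rw [h1, cond_true] at h
    obtain ⟨σ, hσ⟩ := exists_perm h1
    refine ⟨σ, fun c hc j => ?_⟩
    have h2 : (P >>> (6 * c)) % 64 = pc p c := Nat.eq_of_beq_eq_true (allR_iff.mp h c hc)
    rw [h2, bit_pc, hσ]

/-- the check of the table number `r` -/
def permR (r : ℕ) : Bool := fc (PD r) fun p => fc (PT r) fun P => permI p P

lemma perm_0 : allR 180 (fun k => fc (Nat.add 0 k) permR) = true := by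
  decide +kernel

lemma perm_1 : allR 180 (fun k => fc (Nat.add 180 k) permR) = true := by
  decide +kernel

lemma perm_2 : allR 180 (fun k => fc (Nat.add 360 k) permR) = true := by
  decide +kernel

lemma perm_3 : allR 180 (fun k => fc (Nat.add 540 k) permR) = true := by
  decide +kernel

theorem PT_ok : PTok PT := by
  intro r hr
  have h : permR r = true := join (join (join (chunk perm_0 (b := 180) rfl)
    (chunk perm_1 (b := 360) rfl)) (chunk perm_2 (b := 540) rfl)) (chunk perm_3 (b := 720) rfl)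
    r (Nat.zero_le r) hr
  unfold permR at h
  rw [fc_eq, fc_eq] at h
  exact permI_spec h

end Pool.Agent.Helper63.Cube6
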